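import Pool.Agent.Helper29.MX.St
import Pool.Agent.Helper3.KL.Stk

/-! CLASSES OF SYSTEMS: unit directions of the types along projections (the points may differ by the finest resolution). -/

set_option autoImplicit false

namespace Pool.Agent.Helper3.MX

open Finset Filter Topology Matrix Pool.Agent.Helper69.RK Pool.Agent.Helper31.EC Pool.Agent.Helper31.EC.Sp
open Pool.Agent.Helper40.EL Pool.Agent.Helper89.LX Pool.Agent.Helper84.MT
open Pool.Agent.Helper29.MX

noncomputable section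

variable {S T : Sp} {M : ℕ} {E E' : ℕ → ℕ} {ι κ : Type}

/-! ### projections -/

/-- the projection between the laws given an event of an extension -/
def imc (q : Pj T S) {T' : Sp} (p : Pj T' T) (A : ∀ k, (T'.F k).Ω → Prop) : Pj (Sp.im p A) (Sp.im (p.comp q) A) where
  π := q.π
  law := fun k => by
    show push (q.π k) (push (p.π k) ((T'.F k).restμ (A k))) = push (fun ω => q.π k (p.π k ω)) ((T'.F k).restμ (A k))
    exact (push_comp (p.π k) (q.π k) _).symm
  hZ := fun k ω ω' h h' => q.hZ k ω ω' (FSp.im_supp (p.fp k) (A k) ω h) (FSp.im_supp (p.fp k) (A k) ω' h')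
  hn := q.hn

theorem imc_im (q : Pj T S) {T' : Sp} (p : Pj T' T) (A : ∀ k, (T'.F k).Ω → Prop) (k : ℕ) (x : FL (S.F k)) :
    ((imc q p A).fp k).map (FSp.imap ((p.comp q).fp k) (A k) x) = FSp.imap (p.fp k) (A k) ((q.fp k).map x) := by
  induction x using fc_ind
  rfl

/-- the point `Q'` is the pulled point `Q`, up to the finest resolution -/
def Nrp (q : Pj T S) (Q : S.VV M) (Q' : T.VV M) : Prop := ∃ K : ℕ → ℝ, T.Sub K ∧
  ∀ᶠ k in UF, ∀ ω, (T.F k).μ ω ≠ 0 → ∀ i, |Q'.v k ω i - Q.v k (q.π k ω) i| ≤ K k * T.dl 1 k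

theorem Nrp.rfl' (q : Pj T S) (Q : S.VV M) : Nrp q Q (q.vv Q) := by
  refine ⟨fun _ => 0, T.Sub_const le_rfl, Eventually.of_forall fun k ω _ i => ?_⟩
  rw [show (q.vv Q).v k ω i = Q.v k (q.π k ω) i from rfl, sub_self, abs_zero, zero_mul]

/-- the cells of the pulled point are known to the cells of the near point, on an event of an extension -/
theorem cell_im (q : Pj T S) {Q : S.VV M} {Q' : T.VV M} (hQ : Nrp q Q Q') {T' : Sp} (p : Pj T' T)
    (A : ∀ k, (T'.F k).Ω → Prop) {c : ℝ} (hc : c ≤ 1) : Nul (Sp.im p A) (fun k =>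
      h (((imc q p A).fp k).map (fc (Setoid.ker ((Q.im (p.comp q) A).cellv c k))))
        (fc (Setoid.ker ((Q'.im p A).cellv c k)) : FL ((Sp.im p A).F k))) := by
  obtain ⟨K, hK, hb⟩ := hQ
  have hK' : (Sp.im p A).Sub K := hK
  have h1 : PLe (S := Sp.im p A) (fun k => fc (Setoid.ker (((q.vv Q).im p A).cellv c k)))
      (fun k => fc (Setoid.ker ((Q'.im p A).cellv c k))) := by
    refine PLe_cell ((q.vv Q).im p A) c _ (fun k => 2 * K k + 1) (((Sp.im p A).Sub_const zero_le_two).mul hK' |>.add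
      ((Sp.im p A).Sub_const zero_le_one)) ?_
    filter_upwards [hb, hK.1] with k hk hK0 ω ω' a b _ e i
    have h2 := hk ω (FSp.im_supp (p.fp k) (A k) ω a) i
    have h3 := hk ω' (FSp.im_supp (p.fp k) (A k) ω' b) i
    have h4 : |Q'.v k ω i - Q'.v k ω' i| ≤ T.dl c k := abs_sub_le_of_floor_eq (T.dl_pos _ k) (congrFun e i)
    have h5 : K k * T.dl 1 k ≤ K k * T.dl c k := mul_le_mul_of_nonneg_left (T.dl_anti hc k) hK0
    show |Q.v k (q.π k ω) i - Q.v k (q.π k ω') i| ≤ (2 * K k + 1) * T.dl c k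
    rw [abs_le] at *
    constructor <;> linarith [h2.1, h2.2, h3.1, h3.2, h4.1, h4.2]
  have e1 : ∀ k, ((imc q p A).fp k).map (fc (Setoid.ker ((Q.im (p.comp q) A).cellv c k))) =
      (fc (Setoid.ker (((q.vv Q).im p A).cellv c k)) : FL ((Sp.im p A).F k)) := by
    intro k
    show fc (F := (Sp.im p A).F k) (Setoid.comap (q.π k) (Setoid.ker (Q.cellv c k))) =
      fc (F := (Sp.im p A).F k) (Setoid.ker ((q.vv Q).cellv c k))
    rw [vv_cellv]
    rfl
  have e2 : (fun k => h (((imc q p A).fp k).map (fc (Setoid.ker ((Q.im (p.comp q) A).cellv c k))))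
        (fc (Setoid.ker ((Q'.im p A).cellv c k)) : FL ((Sp.im p A).F k))) = fun k =>
      h (fc (Setoid.ker (((q.vv Q).im p A).cellv c k)) : FL ((Sp.im p A).F k))
        (fc (Setoid.ker ((Q'.im p A).cellv c k))) := by
    funext k
    rw [e1 k]
  rw [e2]
  exact h1

theorem UB_cell (Q : S.VV M) (c : ℝ) (y : Part S) :
    UB (fun k => h (fc (Setoid.ker (Q.cellv c k))) (y k) / (S.F k).n) := by
  have h1 : (pof (S := S) fun k => Setoid.ker (Q.cellv c k)).Bd := pof_Bd (Q.bdd c).toInf.2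
  exact h1.ub y

/-- UNIT DIRECTIONS along projections -/
theorem ud_of_pj {s : MSys S M E ι} {i : ι} {v : ℕ} (hu : Ud v s i) (q : Pj T S) {t : MSys T M E' κ} {j : κ}
    (hQ : Nrp q s.Q t.Q) (hw : ∀ c, (t.lf j).win c = ((s.lf i).win c).pull q) : Ud v t j := by
  intro T' p A hA c c' h0 h1 h2
  have h3 := hu T' (p.comp q) A hA c c' h0 h1 h2
  refine h3.trans ?_
  have u1 := UB_cell (s.Q.im (p.comp q) A) c' (((s.im (p.comp q) A hA).lf i).win c)
  have u2 := UB_cell (t.Q.im p A) c' (((t.im p A hA).lf j).win c)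
  have n1 := cell_im q hQ p A h2
  have t1 := (ul_tendsto u1).sub n1
  rw [sub_zero] at t1
  refine le_of_tendsto_of_tendsto t1 (ul_tendsto u2) (Eventually.of_forall fun k => ?_)
  have e1 : (((t.im p A hA).lf j).win c k : FL ((Sp.im p A).F k)) =
      ((imc q p A).fp k).map (((s.im (p.comp q) A hA).lf i).win c k) := by
    have e2 : ((t.im p A hA).lf j).win c k = FSp.imap (p.fp k) (A k) ((t.lf j).win c k) := rfl
    have e3 : ((s.im (p.comp q) A hA).lf i).win c k = FSp.imap ((p.comp q).fp k) (A k) ((s.lf i).win c k) := rfl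
    rw [e2, e3, imc_im, hw c]
    rfl
  have hn : ((Sp.im p A).F k).n = ((Sp.im (p.comp q) A).F k).n := (imc q p A).hn k
  set a := ((imc q p A).fp k).map (fc (Setoid.ker ((s.Q.im (p.comp q) A).cellv c' k))) with ha
  set b : FL ((Sp.im p A).F k) := fc (Setoid.ker ((t.Q.im p A).cellv c' k)) with hb
  set w : FL ((Sp.im p A).F k) := ((t.im p A hA).lf j).win c k with hw'
  have e4 : h (fc (Setoid.ker ((s.Q.im (p.comp q) A).cellv c' k))) (((s.im (p.comp q) A hA).lf i).win c k) = h a w := by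
    rw [e1, ha, ((imc q p A).fp k).h_map]
  have e5 : h a w ≤ h b w + h a b := by
    refine (h_mono (le_sup_right : a ≤ b ⊔ a)).trans ?_
    rw [h_chain]
    exact add_le_add le_rfl (h_anti le_sup_left)
  show h (fc (Setoid.ker ((s.Q.im (p.comp q) A).cellv c' k))) (((s.im (p.comp q) A hA).lf i).win c k) /
      ((Sp.im (p.comp q) A).F k).n - h a b / ((Sp.im p A).F k).n ≤ h b w / ((Sp.im p A).F k).n
  rw [e4, ← hn, ← sub_div]
  exact div_le_div_of_nonneg_right (by linarith) ((Sp.im p A).F k).pos.le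

end

end Pool.Agent.Helper3.MX
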