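import Pool.Agent.Helper3.MX.Stkp
import Pool.Agent.Helper48.DGR.Dgr

/-! ROWS STKP, STVP of the MAX chapter (Helper29/MX/St): no hypothesis. -/

set_option autoImplicit false

namespace Pool.Agent.Helper3.MX

open Finset Filter Topology Matrix Pool.Agent.Helper69.RK Pool.Agent.Helper31.EC Pool.Agent.Helper31.EC.Sp
open Pool.Agent.Helper40.EL Pool.Agent.Helper89.LX Pool.Agent.Helper84.MT
open Pool.Agent.Helper29.MX
open Pool.Agent.Helper36.AM (HQ volO STO DGRu STu MCl)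
open Pool.Agent.Helper3.LF (Mon)

/-- bounds of the degrees in all dimensions -/
theorem dgru_all (N : ℕ) : DGRu N := by
  rcases N with _ | N
  · exact dgru_zero
  · exact Pool.Agent.Helper48.DGR.dgru N

/-- ROW STKP -/
theorem stkp (N : ℕ) : STKP N := stkp_of (dgru_all N)

/-- ROW STVP -/
theorem stvp (N : ℕ) : STVP N := stvp_of (dgru_all N)

/-- STVP WITHOUT Lt, IN ONE DEGREE -/
theorem stvg {N v : ℕ} {A : MCl N} (hA : OkA N A) (hst : ∀ m, m < N → STu m) (hs : STO N (Cv A v)) (g : ℕ) :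
    ∃ D₁ : ℕ, ∀ D, D₁ ≤ D → ∀ (S : Sp) (r : ℕ) (s : MSys S N (lin g) (Fin r)), Cv A v S g r s →
      ∀ x : ∀ k, FD (S.F k) (Mon N D), KOp s (vis s.Q) D 0 x → ∀ l : Lab S, KLb s (vis s.Q) 0 l →
        vol s.Q D x ≤ H (up1 l (s.Q.dg 1)) := stvg_of (dgru_all N) hA.add hst hs g

end Pool.Agent.Helper3.MX
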