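import Pool.Agent.Helper3.MX.Ud
import Pool.Agent.Helper24.PR.Ovl

/-! CLASSES OF SYSTEMS: unit directions of a system over a label of the window `0` of the types (no condition at the
point). -/

set_option autoImplicit false

namespace Pool.Agent.Helper3.MX

open Finset Filter Topology Matrix Pool.Agent.Helper69.RK Pool.Agent.Helper31.EC Pool.Agent.Helper31.EC.Sp
open Pool.Agent.Helper40.EL Pool.Agent.Helper89.LX Pool.Agent.Helper84.MT
open Pool.Agent.Helper29.MX
open Pool.Agent.Helper24.PR (ovl lov_win)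

noncomputable section

variable {S T : Sp} {M : ℕ} {E E' : ℕ → ℕ} {ι κ : Type}

/-! ### finite level -/

theorem imap_eq_rest {T F : FSp} (q : FPj T F) (A : T.Ω → Prop) (a b c : FL F) :
    I (FSp.imap q A a) (FSp.imap q A b) (FSp.imap q A c) =
      I (T.rmap A (q.map a)) (T.rmap A (q.map b)) (T.rmap A (q.map c)) := by
  rw [← (FSp.imp q A).I_map, FSp.imp_imap, FSp.imp_imap, FSp.imp_imap]

/-- informations of the label on an event of an extension of its space -/
theorem fin_bas {F : FSp} (l : FLab F) {T : FSp} (q : FPj T l.T) (A : T.Ω → Prop) (x y : FL F) :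
    T.pb A * I (FSp.imap q A l.v) (FSp.imap q A (l.p.map x)) (FSp.imap q A (l.p.map y)) ≤ l.leak y + 1 := by
  rw [imap_eq_rest]
  refine (T.rmap_I_le A _ _ _).trans (add_le_add ?_ le_rfl)
  rw [q.I_map]
  exact I_mono_right ((l.p.map_le_top x).trans le_sup_left)

/-! ### the space without the refinement of the base -/

section unb

variable (l : Lab S) {T' : Sp} (p : Pj T' (l.ovr 1 one_pos))

/-- an extension of the space over a label, with the base of the space -/
def unb : Sp where
  F := fun k =>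
    { Ω := (T'.F k).Ω
      ft := (T'.F k).ft
      μ := (T'.F k).μ
      nn := (T'.F k).nn
      ms := (T'.F k).ms
      Z := Setoid.comap (p.π k) (l k).T.Z
      n := (l k).T.n
      pos := (l k).T.pos }
  lim := l.sp.lim

/-- the projection -/
def unp : Pj (unb l p) l.sp where
  π := p.π
  law := fun k => p.law k
  hZ := fun _ _ _ _ _ => Iff.rfl
  hn := fun _ => rfl

/-- an event of the extension -/
def unA (A : ∀ k, (T'.F k).Ω → Prop) : ∀ k, ((unb l p).F k).Ω → Prop := A

/-- the law over the label given an event -/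
def imb (A : ∀ k, (T'.F k).Ω → Prop) (k : ℕ) : FRb ((Sp.im p A).F k) ((Sp.im (unp l p) (unA l p A)).F k) where
  π := fun ω => ω
  law := push_id _
  W := (l k).V
  hZ := fun _ _ _ _ => Iff.rfl

theorem imb_map (A : ∀ k, (T'.F k).Ω → Prop) (k : ℕ) (x : FL (S.F k)) :
    (imb l p A k).map (FSp.imap ((unp l p).fp k) (unA l p A k) ((l k).p.map x)) =
      FSp.imap (p.fp k) (A k) ((l k).up 1 one_pos x) := by
  induction x using fc_ind
  rfl

/-- ENTROPIES OVER THE LABEL, on an event of an extension -/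
theorem h_bas (A : ∀ k, (T'.F k).Ω → Prop) (hA : 0 < ul (T'.pr A)) {x y : Part S}
    (hy : Nul S (fun k => (l k).leak (y k))) : ∃ ν : ℕ → ℝ, Tendsto ν UF (𝓝 0) ∧ ∀ᶠ k in UF,
      h (FSp.imap (((unp l p).comp l.pj).fp k) (unA l p A k) (x k))
        (FSp.imap (((unp l p).comp l.pj).fp k) (unA l p A k) (y k)) / (S.F k).n - ν k ≤
        h (FSp.imap (p.fp k) (A k) ((l k).up 1 one_pos (x k))) (FSp.imap (p.fp k) (A k) ((l k).up 1 one_pos (y k))) /
          (S.F k).n := by
  have h1 : Nul S (fun k => 2 / ul (T'.pr A) * ((l k).leak (y k) + 1)) := (hy.add (Nul.const S 1)).const_mul _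
  refine ⟨_, h1, ?_⟩
  filter_upwards [pr_half' hA] with k hk
  have hpos := (S.F k).pos
  set a : FL ((Sp.im (unp l p) (unA l p A)).F k) := FSp.imap ((unp l p).fp k) (unA l p A k) ((l k).p.map (x k)) with ha
  set b : FL ((Sp.im (unp l p) (unA l p A)).F k) := FSp.imap ((unp l p).fp k) (unA l p A k) ((l k).p.map (y k)) with hb
  set v : FL ((Sp.im (unp l p) (unA l p A)).F k) := FSp.imap ((unp l p).fp k) (unA l p A k) (l k).v with hv
  have e1 : h (FSp.imap (((unp l p).comp l.pj).fp k) (unA l p A k) (x k))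
      (FSp.imap (((unp l p).comp l.pj).fp k) (unA l p A k) (y k)) = h a b := by
    have h2 := ((imc l.pj (unp l p) (unA l p A)).fp k).h_map
      (FSp.imap (((unp l p).comp l.pj).fp k) (unA l p A k) (x k))
      (FSp.imap (((unp l p).comp l.pj).fp k) (unA l p A k) (y k))
    rw [imc_im l.pj (unp l p) (unA l p A) k (x k), imc_im l.pj (unp l p) (unA l p A) k (y k)] at h2
    exact h2.symm
  have e2 : h (FSp.imap (p.fp k) (A k) ((l k).up 1 one_pos (x k)))
      (FSp.imap (p.fp k) (A k) ((l k).up 1 one_pos (y k))) = h a (b ⊔ v) :=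
    (congrArg₂ (fun u w => h u w) (imb_map l p A k (x k)).symm (imb_map l p A k (y k)).symm).trans
      ((imb l p A k).h_map a b)
  have e3 := I_eq' v a b
  rw [sup_comm v] at e3
  have e4 : T'.pr A k * I v a b ≤ (l k).leak (y k) + 1 :=
    fin_bas (l k) ((unp l p).fp k) (unA l p A k) (x k) (y k)
  have e5 : I v a b ≤ 2 / ul (T'.pr A) * ((l k).leak (y k) + 1) := by
    have h2 : ul (T'.pr A) / 2 * I v a b ≤ (l k).leak (y k) + 1 :=
      (mul_le_mul_of_nonneg_right hk (I_nonneg _ _ _)).trans e4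
    have h3 : 2 / ul (T'.pr A) * (ul (T'.pr A) / 2 * I v a b) = I v a b := by
      field_simp
    rw [← h3]
    exact mul_le_mul_of_nonneg_left h2 (by positivity)
  rw [e2]
  have e6 : h a b / (S.F k).n - 2 / ul (T'.pr A) * ((l k).leak (y k) + 1) / (S.F k).n ≤ h a (b ⊔ v) / (S.F k).n := by
    rw [← sub_div]
    exact div_le_div_of_nonneg_right (by linarith) hpos.le
  rw [← e1] at e6
  exact e6

end unb

/-! ### unit directions -/

/-- the cells of the point over a label -/
theorem cell_ovl (Q : S.VV M) (l : Lab S) (c : ℝ) (k : ℕ) :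
    (fc (Setoid.ker (((l.pj.vv Q).chg l.V 1 one_pos).cellv c k)) : FL ((l.ovr 1 one_pos).F k)) =
      (l k).up 1 one_pos (fc (Setoid.ker (Q.cellv c k))) := by
  have h1 : (l k).up 1 one_pos (fc (Setoid.ker (Q.cellv c k))) =
      (frb (l k).T (l k).V 1 one_pos).map (fc (Setoid.ker ((l.pj.vv Q).cellv c k))) := by
    rw [vv_cellv]
    rfl
  rw [h1]
  exact congrArg (fun g => fc (F := ((l.sp).F k).chg (l.V k) 1 one_pos) (Setoid.ker g)) (cellv_bas l.V (l.pj.vv Q) c k)

/-- UNIT DIRECTIONS over a label -/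
theorem ud_bas {s : MSys S M E ι} {v : ℕ} {i : ι} (hu : Ud v s i) (l : Lab S)
    (hl : ∀ i, Nul S (fun k => (l k).leak ((s.lf i).win 0 k))) : Ud v (ovl s l hl) i := by
  intro T' p A hA c c' h0 h1 h2
  have h3 := hu (unb l p) ((unp l p).comp l.pj) (unA l p A) hA c c' h0 h1 h2
  have hc : Nul S (fun k => (l k).leak ((s.lf i).win c k)) := by
    apply ((hl i).add ((s.lf i).win_mono h0)).of_le (Eventually.of_forall fun k => FLab.leak_nonneg _ _)
    exact Eventually.of_forall fun k => FLab.leak_le_leak _ _ _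
  obtain ⟨ν, hν, h4⟩ := h_bas l p A hA (x := fun k => fc (Setoid.ker (s.Q.cellv c' k))) hc
  have u1 := UB_cell (s.Q.im ((unp l p).comp l.pj) (unA l p A)) c'
    (((s.im ((unp l p).comp l.pj) (unA l p A) hA).lf i).win c)
  have u2 := UB_cell ((ovl s l hl).Q.im p A) c' ((((ovl s l hl).im p A hA).lf i).win c)
  refine h3.trans ?_
  have t1 := (ul_tendsto u1).sub hν
  have t2 := ul_tendsto u2
  rw [sub_zero] at t1
  refine le_of_tendsto_of_tendsto t1 t2 ?_
  filter_upwards [h4] with k hk
  have e1 : (((ovl s l hl).im p A hA).lf i).win c k = FSp.imap (p.fp k) (A k) ((l k).up 1 one_pos ((s.lf i).win c k)) := by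
    have h5 := congrFun (lov_win (s.lf i) l (hl i) c) k
    have h6 : (((ovl s l hl).im p A hA).lf i).win c k = FSp.imap (p.fp k) (A k) (((ovl s l hl).lf i).win c k) := rfl
    exact h6.trans (congrArg (FSp.imap (p.fp k) (A k)) h5)
  have e2 : (fc (Setoid.ker (((ovl s l hl).im p A hA).Q.cellv c' k)) : FL ((Sp.im p A).F k)) =
      FSp.imap (p.fp k) (A k) ((l k).up 1 one_pos (fc (Setoid.ker (s.Q.cellv c' k)))) := by
    exact congrArg (FSp.imap (p.fp k) (A k)) (cell_ovl s.Q l c' k)
  have hn : ((Sp.im p A).F k).n = (S.F k).n := by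
    have h5 := l.n_over 1 one_pos k
    rw [one_mul] at h5
    exact h5
  have e8 := congrArg₂ (fun u w => h u w) e2 e1
  refine hk.trans (le_of_eq ?_)
  exact (congrArg₂ (fun u w : ℝ => u / w) e8 hn).symm

/-- INV(v) over a label -/
theorem inv_bas {s : MSys S M E ι} {v : ℕ} (h : Inv v s) (l : Lab S)
    (hl : ∀ i, Nul S (fun k => (l k).leak ((s.lf i).win 0 k))) : Inv v (ovl s l hl) :=
  ⟨h.1, fun i => ud_bas (h.2 i) l hl⟩

end

end Pool.Agent.Helper3.MX
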