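import Pool.Agent.Helper3.MX.Dbi
import Pool.Agent.Helper26.MT.Zw

/-! CLASSES OF SYSTEMS: forms over K-labels from a bound of the volumes of all iterated doubles; the same bound over a
K-label which is visible at the point. -/

set_option autoImplicit false

namespace Pool.Agent.Helper3.MX

open Finset Filter Topology Matrix Pool.Agent.Helper69.RK Pool.Agent.Helper31.EC Pool.Agent.Helper31.EC.Sp
open Pool.Agent.Helper40.EL Pool.Agent.Helper89.LX Pool.Agent.Helper84.MT
open Pool.Agent.Helper29.MX Pool.Agent.Helper3.KL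
open Pool.Agent.Helper36.AM (HQ volO H_over)
open Pool.Agent.Helper3.LF (Mon)

noncomputable section

variable {S T : Sp} {M D : ℕ} {E : ℕ → ℕ} {ι κ : Type} {α : ℕ → Type}

/-- `P` IS CLOSED UNDER DOUBLES -/
def DblCl (P : ∀ (T : Sp) (κ : Type), MSys T M E κ → (∀ k, (T.F k).Ω → α k) → Prop) : Prop :=
  ∀ (T : Sp) (κ : Type) [Finite κ] (t : MSys T M E κ) (C : ∀ k, (T.F k).Ω → α k) (hC : Dtm t.Q C), P T κ t C →
    P (d2 C) (κ ⊕ κ) (dbl t C hC) (pb C (q1 C))

/-- THE FORM: `P` is a property of systems which is closed under doubles and bounds the volumes -/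
theorem exists_cls [Finite ι] {s : MSys S M E ι} {C : ∀ k, (S.F k).Ω → α k} (hC : Dtm s.Q C)
    {P : ∀ (T : Sp) (κ : Type), MSys T M E κ → (∀ k, (T.F k).Ω → α k) → Prop}
    (h0 : P S ι s C) (hd : DblCl P) (B c : ℝ)
    (hB : ∀ (T : Sp) (κ : Type) [Finite κ] (t : MSys T M E κ) (C' : ∀ k, (T.F k).Ω → α k), P T κ t C' →
      t.vol D c ≤ B) :
    ∃ y : ∀ k, FD (S.F k) (Mon M D), (gaq s.Q D).AdfK (LC.kz (kp C)) (s.cnd c) y ∧ vol s.Q D y ≤ B := by
  refine exists_form s hC (fun X => P X.T X.κ X.sys (pb C X.P)) (CExt.pull s (Pj.id S)) h0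
    (fun X hX => ?_) B c fun X hX => ?_
  · have := X.fin
    exact hd X.T X.κ X.sys (pb C X.P) (dtm_pb hC X.P) hX
  · have := X.fin
    exact hB X.T X.κ X.sys (pb C X.P) hX

/-! ### visible labels -/

/-- a label of the window `c` without any leak at `C`, of information at least `b` -/
def HasL (b c : ℝ) (t : MSys T M E κ) (C : ∀ k, (T.F k).Ω → α k) : Prop :=
  ∃ u : Lab T, t.DMc c u ∧ (∀ᶠ k in UF, (u k).leak (kp C k) = 0) ∧ b ≤ u.info

/-- LABELS WITHOUT ANY LEAK AT `C` are labels of the double -/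
theorem hasL_dbl {b c : ℝ} {t : MSys T M E κ} {C : ∀ k, (T.F k).Ω → α k} (hC : Dtm t.Q C) (h : HasL b c t C) :
    HasL b c (dbl t C hC) (pb C (q1 C)) := by
  obtain ⟨u, h1, h2, h3⟩ := h
  refine ⟨u.up' (q1 C), ?_, ?_, ?_⟩
  · apply MSys.DMc_add_iff.2
    refine ⟨MSys.DMc.up' (q1 C) h1, fun i => ?_⟩
    have h4 : Nul T (fun k => (u k).leak ((t.lf i).win c k)) := h1 (some i)
    apply ((Lab.nul_pj (q1 C)).mpr h4).of_le (Eventually.of_forall fun k => FLab.leak_nonneg _ _)
    filter_upwards [h2] with k hk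
    have e : ((t.lf i).cpy C hC).win c k = ((q2 C).fp k).map ((t.lf i).win c k) :=
      congrFun ((t.lf i).cpy_win C hC c) k
    have h5 : ((Lab.up' (q1 C) u) k).leak (((q2 C).fp k).map ((t.lf i).win c k)) ≤ (u k).leak ((t.lf i).win c k) :=
      up_snd C k (u k) hk _
    exact (congrArg (fun x => ((Lab.up' (q1 C) u) k).leak x) e).le.trans h5
  · filter_upwards [h2] with k hk
    apply le_antisymm _ (FLab.leak_nonneg _ _)
    have h4 : (u.up' (q1 C) k).leak (((q1 C).fp k).map (kp C k)) ≤ (u k).leak (kp C k) :=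
      FLab.up'_leak (u k) ((q1 C).fp k) ((q1 C).hn k) (kp C k)
    rw [hk] at h4
    exact h4
  · exact h3.trans (Lab.info_up' (A := pcd t.Q) (B := pcd t.Q) (q1 C) ⟨h1 none, h1 none⟩ (pcd_Bd t.Q))

/-- the entropy over `kappa_c` is at most the entropy over the label -/
theorem HQ_hasL [Countable κ] {b c : ℝ} {t : MSys T M E κ} {C : ∀ k, (T.F k).Ω → α k} (h : HasL b c t C) :
    HQ t c ≤ ul (fun k => H (pcd t.Q k) / (T.F k).n) - b := by
  obtain ⟨u, h1, _, h3⟩ := h
  have h4 := H_over t.Q (t.kap c) ((t.kap_isKap c).1 none)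
  have h5 := (t.kap_isKap c).2 u h1
  unfold HQ
  rw [h4]
  linarith

end

end Pool.Agent.Helper3.MX
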