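import Pool.Agent.Helper3.MX.Ud
import Pool.Agent.Helper3.KL.Cor
import Pool.Agent.Helper3.KL.Ker

/-! CLASSES OF SYSTEMS: unit directions of the types of the double of a system over a literal variable `C` which determines
the finest cell of the point. -/

set_option autoImplicit false

namespace Pool.Agent.Helper3.MX

open Finset Filter Topology Matrix Pool.Agent.Helper69.RK Pool.Agent.Helper31.EC Pool.Agent.Helper31.EC.Sp
open Pool.Agent.Helper40.EL Pool.Agent.Helper89.LX Pool.Agent.Helper84.MT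
open Pool.Agent.Helper29.MX Pool.Agent.Helper3.KL

noncomputable section

variable {S T : Sp} {M : ℕ} {E E' : ℕ → ℕ} {ι κ : Type} {α : ℕ → Type}

/-! ### resolutions -/

/-- the resolution of a literal variable -/
@[instance_reducible] def rk (C : ∀ k, (S.F k).Ω → α k) : Rsl S := fun k => Setoid.ker (C k)

theorem rk_qv (R : Rsl S) : rk (qv R) = R := funext fun k => ker_qv R k

/-- a literal point is determined by the resolution -/
theorem pt_dtm {s : MSys S M E ι} {R : Rsl S} (h : Pt s R) : Dtm s.Q (qv R) := by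
  apply dtm_qv
  filter_upwards [h] with k hk ω ω' a b c d
  have h1 : s.Q.v k ω = s.Q.v k ω' := hk ω ω' a b c d
  show cell (S.dl 1 k) (s.Q.v k ω) = cell (S.dl 1 k) (s.Q.v k ω')
  rw [h1]

/-! ### the double -/

variable {s : MSys S M E ι} {C : ∀ k, (S.F k).Ω → α k}

theorem nrp_q2 (hC : Dtm s.Q C) : Nrp (q2 C) s.Q ((q1 C).vv s.Q) := cpd_close hC

theorem dbl_win_inl (hC : Dtm s.Q C) (i : ι) (c : ℝ) :
    ((dbl s C hC).lf (Sum.inl i)).win c = ((s.lf i).win c).pull (q1 C) := win_pull (q1 C) (s.lf i) c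

theorem dbl_win_inr (hC : Dtm s.Q C) (i : ι) (c : ℝ) :
    ((dbl s C hC).lf (Sum.inr i)).win c = ((s.lf i).win c).pull (q2 C) := (s.lf i).cpy_win C hC c

/-- UNIT DIRECTIONS of the types of the double -/
theorem ud_dbl (hC : Dtm s.Q C) {v : ℕ} (i : ι ⊕ ι) (h : Ud v s (i.elim id id)) : Ud v (dbl s C hC) i := by
  rcases i with i | i
  · exact ud_of_pj h (q1 C) (Nrp.rfl' (q1 C) s.Q) fun c => dbl_win_inl hC i c
  · exact ud_of_pj h (q2 C) (nrp_q2 hC) fun c => dbl_win_inr hC i c

/-- INV(v) for the double -/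
theorem inv_dbl (hC : Dtm s.Q C) {v : ℕ} (h : Inv v s) : Inv v (dbl s C hC) :=
  ⟨h.1.map Sum.inl, fun i => ud_dbl hC i (h.2 _)⟩

end

end Pool.Agent.Helper3.MX
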