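import Pool.Agent.Helper3.MX.Vis
import Pool.Agent.Helper3.MX.Bas

/-! CLASSES OF SYSTEMS: the structure theorem for K-labels from the structure theorem for ordinary labels: visible labels,
deep labels (change of the base). -/

set_option autoImplicit false

namespace Pool.Agent.Helper3.MX

open Finset Filter Topology Matrix Pool.Agent.Helper69.RK Pool.Agent.Helper31.EC Pool.Agent.Helper31.EC.Sp
open Pool.Agent.Helper40.EL Pool.Agent.Helper89.LX Pool.Agent.Helper84.MT
open Pool.Agent.Helper29.MX Pool.Agent.Helper3.KL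
open Pool.Agent.Helper36.AM (HQ volO STO DGRu STu MCl H_over HQ_eq)
open Pool.Agent.Helper3.LF (Mon)
open Pool.Agent.Helper87.NSL (cndR KnS)
open Pool.Agent.Helper52.SL (cv cv_dg)

noncomputable section

variable {S T : Sp} {M N D g v : ℕ} {E : ℕ → ℕ} {ι κ : Type} {α : ℕ → Type}

theorem triv_DMf (A : κ → Part S) : Lab.DMf (fun k => FLab.triv (S.F k)) A := by
  intro i
  have h1 : (fun k => (FLab.triv (S.F k)).leak (A i k)) = fun _ => 0 := by
    funext k
    exact FLab.triv_leak _
  rw [h1]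
  exact Nul_zero S

/-- the resolution over a label -/
theorem rk_rc (l : Lab S) (R : Rsl S) : rk (rc l (qv R)) = rover l 1 one_pos R := by
  funext k
  ext ω ω'
  exact Quotient.eq (r := R k)

theorem pt_rover {s : MSys S M E ι} {R : Rsl S} (h : Pt s R) (l : Lab S)
    (hl : ∀ i, Nul S (fun k => (l k).leak ((s.lf i).win 0 k))) :
    Pt (Pool.Agent.Helper24.PR.ovl s l hl) (rover l 1 one_pos R) := by
  filter_upwards [h] with k hk ω ω' a b c d
  exact hk ((l k).p.π ω) ((l k).p.π ω') ((l k).p.supp ω a) ((l k).p.supp ω' b) (((l k).p.hZ ω ω' a b).1 c.2) d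

/-- THE FORM OVER A DEEP K-LABEL, from a class which contains the system over the label -/
theorem deep_form [Finite ι] {s : MSys S N (lin g) ι} {R : Rsl S} (hP : Pt s R) {A : MCl N} (hadd : AddM A)
    (hI : Inv v s) (hs : STO N (Cv A v))
    (hD : ∀ (r : ℕ) (T : Sp) (t : MSys T N (lin g) (Fin r)), t.vol D 0 ≤ volO t 0)
    (l : Lab S) (hl : ∀ i, Nul S (fun k => (l k).leak ((s.lf i).win 0 k))) (hK : (LC.kz fun k => fc (R k)).ev l)
    (hA : EnM A g (l.ovr 1 one_pos) ι (Pool.Agent.Helper24.PR.ovl s l hl)) :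
    ∃ x : ∀ k, FD (S.F k) (Mon N D), KAd s R D 0 x ∧ vol s.Q D x ≤ H (up1 l (s.Q.dg 1)) := by
  have hR : Nul S (fun k => (l k).leak (fc (R k))) := LC.kz_nul hK
  have hP' : Dtm (rel s l hl).Q (rc l (qv R)) := by
    have h1 : Dtm (Pool.Agent.Helper24.PR.ovl s l hl).Q (qv (rover l 1 one_pos R)) := pt_dtm (pt_rover hP l hl)
    filter_upwards [h1] with k hk ω ω' a b c d
    refine hk ω ω' a b c ?_
    have h2 : rk (rc l (qv R)) k ω ω' := d
    rw [rk_rc] at h2
    exact Quotient.sound (s := rover l 1 one_pos R k) h2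
  have hI' : Inv v (rel s l hl) := inv_bas hI l hl
  have hA' : EnM A g (l.ovr 1 one_pos) ι (rel s l hl) := hA
  obtain ⟨y, hy, hv⟩ := vis_form (D := D) (l := fun k => FLab.triv ((l.ovr 1 one_pos).F k)) hP' hadd hA' hI' hs hD
    (triv_DMf _) (Eventually.of_forall fun k => FLab.triv_leak _)
  refine ⟨cm l y, ⟨Gau.Adf_iff.2 ⟨fun i => ?_, cm_fm hy.1.fm⟩, ?_⟩, ?_⟩
  · rcases i with _ | i
    · have h1 := LC.kz_nul hy.2
      have h2 : Nul S (fun k => (y k).l.leak (kp (rc l (qv R)) k)) := (l.nul_over 1 one_pos).mp h1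
      apply (hR.add h2).of_le (Eventually.of_forall fun k => FLab.leak_nonneg _ _)
      refine Eventually.of_forall fun k => ?_
      have h3 := cm_leak l y k (fc (R k))
      have h4 : kp (rc l (qv R)) k = (l k).up 1 one_pos (fc (R k)) := by
        rw [rc_kp, kp_qv]
      rw [h4]
      exact h3
    · have h1 : Nul (l.ovr 1 one_pos) (fun k => (y k).l.leak ((rel s l hl).cnd 0 (some i) k)) :=
        Gau.Adf.dm _ hy.1 (some i)
      have h2 : (fun k => (y k).l.leak ((rel s l hl).cnd 0 (some i) k)) =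
          fun k => (y k).l.leak ((l k).up 1 one_pos ((s.lf i).win 0 k)) := by
        funext k
        rw [rel_cnd]
        rfl
      rw [h2] at h1
      apply ((hl i).add ((l.nul_over 1 one_pos).mp h1)).of_le (Eventually.of_forall fun k => FLab.leak_nonneg _ _)
      exact Eventually.of_forall fun k => cm_leak l y k _
  · filter_upwards [hy.2, hK] with k a b
    apply le_antisymm _ (FLab.leak_nonneg _ _)
    have h3 := cm_leak l y k (fc (R k))
    have h4 : kp (rc l (qv R)) k = (l k).up 1 one_pos (fc (R k)) := by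
      rw [rc_kp, kp_qv]
    have a' : (y k).l.leak (kp (rc l (qv R)) k) = 0 := a
    have b' : (l k).leak (fc (R k)) = 0 := b
    rw [h4] at a'
    rw [a', b', add_zero] at h3
    exact h3
  · rw [cm_vol]
    refine hv.trans ((H_up1_le _ _).trans_eq ?_)
    have h1 : (rel s l hl).Q.dg 1 = up1 l (s.Q.dg 1) := cv_dg l s.Q 1
    rw [h1]

end

end Pool.Agent.Helper3.MX
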