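import Pool.Agent.Helper3.MX.Cls

/-! CLASSES OF SYSTEMS: the structure theorem for ordinary labels on all iterated doubles, for a class which is closed under
adding types on extensions. -/

set_option autoImplicit false

namespace Pool.Agent.Helper3.MX

open Finset Filter Topology Matrix Pool.Agent.Helper69.RK Pool.Agent.Helper31.EC Pool.Agent.Helper31.EC.Sp
open Pool.Agent.Helper40.EL Pool.Agent.Helper89.LX Pool.Agent.Helper84.MT
open Pool.Agent.Helper29.MX Pool.Agent.Helper3.KL
open Pool.Agent.Helper36.AM (HQ volO STO DGRu STu MCl H_over HQ_eq)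
open Pool.Agent.Helper3.LF (Mon)

noncomputable section

variable {S T : Sp} {M N D g v : ℕ} {E : ℕ → ℕ} {ι κ : Type} {α : ℕ → Type}

/-- closure of a class of systems under more types, on extensions -/
def AddM (A : MCl N) : Prop := ∀ S g r s, A S g r s → ∀ (T : Sp) (p : Pj T S) (g' r' : ℕ)
  (hg : ∀ D, lin g D ≤ lin g' D) (L : Fin r' → Leaf T (p.vv s.Q) (lin g')) (f : Fin r → Fin r'),
    (∀ i, L (f i) = ((s.lf i).pull p).monoE hg) → A T g' r' ⟨p.vv s.Q, L⟩

/-- members of the class, for all enumerations of the types -/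
def EnM (A : MCl N) (g : ℕ) (T : Sp) (κ : Type) (t : MSys T N (lin g) κ) : Prop :=
  ∀ (r : ℕ) (e : Fin r ≃ κ), A T g r (t.ren e)

/-- the class is closed under doubles -/
theorem enM_dbl {A : MCl N} (hA : AddM A) (g : ℕ) {T : Sp} [Finite κ] {t : MSys T N (lin g) κ}
    {C : ∀ k, (T.F k).Ω → α k} (hP : Dtm t.Q C) (h : EnM A g T κ t) : EnM A g (d2 C) (κ ⊕ κ) (dbl t C hP) := by
  intro r' e'
  have h1 := h (Nat.card κ) (Finite.equivFin κ).symm
  refine hA T g _ _ h1 (d2 C) (q1 C) g r' (fun _ => le_rfl) (fun i => (dbl t C hP).lf (e' i))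
    (fun i => e'.symm (Sum.inl ((Finite.equivFin κ).symm i))) fun i => ?_
  exact congrArg (dbl t C hP).lf (e'.apply_symm_apply (Sum.inl ((Finite.equivFin κ).symm i)))

/-- members of a class closed under `add` are members for all enumerations -/
theorem enM_of {A : MCl N} (hA : AddM A) {S : Sp} {g r : ℕ} {s : MSys S N (lin g) (Fin r)} (h : A S g r s) :
    EnM A g S (Fin r) s := by
  intro r' e
  refine hA S g r s h S (Pj.id S) g r' (fun _ => le_rfl) (fun i => s.lf (e i)) e.symm fun i => ?_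
  exact congrArg s.lf (e.apply_symm_apply i)

/-- unit directions, other enumerations -/
theorem inv_ren {t : MSys T M E κ} (h : Inv v t) (e : ι ≃ κ) : Inv v (t.ren e) :=
  ⟨h.1.map e.symm, fun i => h.2 (e i)⟩

theorem HQ_ren [Finite κ] [Finite ι] (t : MSys T M E κ) (e : ι ≃ κ) (c : ℝ) : HQ (t.ren e) c = HQ t c := by
  have h1 : (t.ren e).IsKap c (t.kap c) := (t.IsKap_ren_iff e.surjective c _).2 (t.kap_isKap c)
  exact (HQ_eq (t.ren e) h1).symm

/-- THE BOUND OF THE VOLUME for the members of a class with a structure theorem -/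
theorem vol_le_HQ {A : MCl N} (hs : STO N (Cv A v)) {g D : ℕ}
    (hD : ∀ (r : ℕ) (S : Sp) (s : MSys S N (lin g) (Fin r)), s.vol D 0 ≤ volO s 0) {T : Sp} [Finite κ]
    {t : MSys T N (lin g) κ} (h : EnM A g T κ t) (hI : Inv v t) : t.vol D 0 ≤ HQ t 0 := by
  set e := (Finite.equivFin κ).symm with he
  rw [← t.vol_ren e.surjective D 0, ← HQ_ren t e]
  exact (hD _ _ _).trans (hs T g _ _ ⟨h _ e, inv_ren hI e⟩)

end

end Pool.Agent.Helper3.MX
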