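import Pool.Agent.Helper3.MX.Deep

/-! ROWS STKP, STVP of the MAX chapter (Helper29/MX/St): the structure theorem for K-labels from the structure theorem for
ordinary labels. The bounds of the degrees (DGR) are an argument here; `Stkq.lean` plugs them in. -/

set_option autoImplicit false

namespace Pool.Agent.Helper3.MX

open Finset Filter Topology Matrix Pool.Agent.Helper69.RK Pool.Agent.Helper31.EC Pool.Agent.Helper31.EC.Sp
open Pool.Agent.Helper40.EL Pool.Agent.Helper89.LX Pool.Agent.Helper84.MT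
open Pool.Agent.Helper29.MX Pool.Agent.Helper3.KL
open Pool.Agent.Helper36.AM (HQ volO STO DGRu STu MCl H_over HQ_eq)
open Pool.Agent.Helper3.LF (Mon)
open Pool.Agent.Helper87.NSL (cndR KnS)
open Pool.Agent.Helper7.RD (volC volCO volC_le_of volCO_le)

noncomputable section

variable {S T : Sp} {M N D g v : ℕ} {E : ℕ → ℕ} {ι κ : Type}

/-- bounds of the degrees in dimension zero -/
theorem dgru_zero : DGRu 0 := by
  intro _ g
  refine ⟨0, fun D _ r S s => ?_⟩
  have h1 := s.vol_le_M D 0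
  have h2 := HQ_nonneg s 0
  have h3 := HQ_le_volO s 0
  have h4 : ((0 : ℕ) : ℝ) = 0 := Nat.cast_zero
  linarith

/-- ST FOR ALL K-LABELS of a member of a class which is closed under the change of the base -/
theorem stk_of {A : MCl N} (hadd : AddM A) (hs : STO N (Cv A v))
    (hD : ∀ (r : ℕ) (T : Sp) (t : MSys T N (lin g) (Fin r)), t.vol D 0 ≤ volO t 0) {r : ℕ}
    {s : MSys S N (lin g) (Fin r)} {R : Rsl S} (hP : Pt s R) (hI : Inv v s)
    (hb : ∀ (l : Lab S) (hl : ∀ i, Nul S fun k => (l k).leak ((s.lf i).win 0 k)),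
      A (l.ovr 1 one_pos) g r (Pool.Agent.Helper24.PR.ovl s l hl)) {l : Lab S} (hl : KLb s R 0 l) :
    ∃ x : ∀ k, FD (S.F k) (Mon N D), KAd s R D 0 x ∧ vol s.Q D x ≤ H (up1 l (s.Q.dg 1)) :=
  deep_form hP hadd hI hs hD l (fun i => hl.1 (some i)) hl.2 (enM_of hadd (hb l fun i => hl.1 (some i)))

/-- STKP from DGR -/
theorem stkp_of (hdg : DGRu N) : STKP N := by
  intro A C hC hst v hs m S g r s R h
  obtain ⟨D, hD⟩ := hdg hst g
  exact le_HK fun l hl => ⟨D, stk_of hC.oA.add hs (fun r S s => hD D le_rfl r S s) h.2.1 h.2.2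
    (fun l hl => hC.le m _ _ _ _ (hC.bas m S g r s h.1 l hl)) hl⟩

/-- ST FOR ALL VISIBLE K-LABELS of a member of an ordinary class (no condition at the point) -/
theorem stv_of {A : MCl N} (hadd : AddM A) (hs : STO N (Cv A v))
    (hD : ∀ (r : ℕ) (T : Sp) (t : MSys T N (lin g) (Fin r)), t.vol D 0 ≤ volO t 0) {r : ℕ}
    {s : MSys S N (lin g) (Fin r)} (h : Cv A v S g r s) {l : Lab S} (hl : KLb s (vis s.Q) 0 l) :
    ∃ x : ∀ k, FD (S.F k) (Mon N D), KAd s (vis s.Q) D 0 x ∧ vol s.Q D x ≤ H (up1 l (s.Q.dg 1)) := by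
  have hl' : s.DMc 0 l := by
    intro i
    rcases i with _ | i
    · exact hl.1 none
    · exact hl.1 (some i)
  obtain ⟨x, hx, h2⟩ := vis_form (D := D) (cel_dtm s.Q) hadd (enM_of hadd h.1) h.2 hs hD hl' hl.2
  refine ⟨x, ⟨Gau.Adf_iff.2 ⟨fun i => ?_, hx.1.fm⟩, hx.2⟩, h2⟩
  have h3 := Gau.Adf.dm _ hx.1
  rcases i with _ | i
  · exact h3 none
  · exact h3 (some i)

/-- THE SAME FOR THE OPTIMAL FORMS -/
theorem stv_opt {A : MCl N} (hadd : AddM A) (hs : STO N (Cv A v))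
    (hD : ∀ (r : ℕ) (T : Sp) (t : MSys T N (lin g) (Fin r)), t.vol D 0 ≤ volO t 0) {r : ℕ}
    {s : MSys S N (lin g) (Fin r)} (h : Cv A v S g r s) {x : ∀ k, FD (S.F k) (Mon N D)} (hx : KOp s (vis s.Q) D 0 x)
    {l : Lab S} (hl : KLb s (vis s.Q) 0 l) : vol s.Q D x ≤ H (up1 l (s.Q.dg 1)) := by
  obtain ⟨y, hy, h2⟩ := stv_of hadd hs hD h hl
  exact (Pool.Agent.Helper7.RD.optK_vol_le hx hy).trans h2

/-- STVP from DGR -/
theorem stvp_of (hdg : DGRu N) : STVP N := by
  intro A hA hst v hs S g r s h _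
  obtain ⟨D, hD⟩ := hdg hst g
  exact le_HK fun l hl => ⟨D, stv_of hA.add hs (fun r S s => hD D le_rfl r S s) h hl⟩

/-- STVP WITHOUT Lt, IN ONE DEGREE: for every `g` there is a degree from which on every optimal form of a member for the
cells of level `1` at the window `0` has at most the volume of the entropy of the point over any visible K-label -/
theorem stvg_of (hdg : DGRu N) {A : MCl N} (hadd : AddM A) (hst : ∀ m, m < N → STu m) (hs : STO N (Cv A v)) (g : ℕ) :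
    ∃ D₁ : ℕ, ∀ D, D₁ ≤ D → ∀ (S : Sp) (r : ℕ) (s : MSys S N (lin g) (Fin r)), Cv A v S g r s →
      ∀ x : ∀ k, FD (S.F k) (Mon N D), KOp s (vis s.Q) D 0 x → ∀ l : Lab S, KLb s (vis s.Q) 0 l →
        vol s.Q D x ≤ H (up1 l (s.Q.dg 1)) := by
  obtain ⟨D₁, hD⟩ := hdg hst g
  exact ⟨D₁, fun D h1 S r s h x hx l hl => stv_opt hadd hs (fun r S s => hD D h1 r S s) h hx hl⟩

end

end Pool.Agent.Helper3.MX
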