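import Pool.Agent.Helper3.MX.Fam
import Pool.Agent.Helper29.MX.Bas

/-! CLASSES OF SYSTEMS: the structure theorem for K-labels from the structure theorem for ordinary labels: visible labels
(labels of the window `0` without any leak at the resolution). Volumes and entropies of K-labels. -/

set_option autoImplicit false

namespace Pool.Agent.Helper3.MX

open Finset Filter Topology Matrix Pool.Agent.Helper69.RK Pool.Agent.Helper31.EC Pool.Agent.Helper31.EC.Sp
open Pool.Agent.Helper40.EL Pool.Agent.Helper89.LX Pool.Agent.Helper84.MT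
open Pool.Agent.Helper29.MX Pool.Agent.Helper3.KL
open Pool.Agent.Helper36.AM (HQ volO STO DGRu STu MCl H_over HQ_eq)
open Pool.Agent.Helper3.LF (Mon)
open Pool.Agent.Helper87.NSL (cndR)

noncomputable section

variable {S T : Sp} {M N D g v : ℕ} {E : ℕ → ℕ} {ι κ : Type} {α : ℕ → Type}

/-! ### visible labels -/

/-- the entropy of the point does not change in the double -/
theorem pcd_dbl {t : MSys T M E κ} {C : ∀ k, (T.F k).Ω → α k} (hC : Dtm t.Q C) :
    ul (fun k => H (pcd (dbl t C hC).Q k) / ((d2 C).F k).n) = ul (fun k => H (pcd t.Q k) / (T.F k).n) := by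
  congr 1
  funext k
  have h1 : pcd (dbl t C hC).Q k = ((q1 C).fp k).map (pcd t.Q k) := congrFun (pcd_pull (q1 C) t.Q) k
  have h2 := ((q1 C).fp k).H_map (pcd t.Q k)
  have h3 : ((d2 C).F k).n = (T.F k).n := (q1 C).hn k
  rw [h1, h2, h3]

/-- THE FORM OVER A VISIBLE K-LABEL: `l` is a label of the window `0` without any leak at `C` -/
theorem vis_form [Finite ι] {s : MSys S N (lin g) ι} {C : ∀ k, (S.F k).Ω → α k} (hC : Dtm s.Q C) {A : MCl N}
    (hadd : AddM A) (hA : EnM A g S ι s) (hI : Inv v s) (hs : STO N (Cv A v))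
    (hD : ∀ (r : ℕ) (T : Sp) (t : MSys T N (lin g) (Fin r)), t.vol D 0 ≤ volO t 0)
    {l : Lab S} (hl : s.DMc 0 l) (hK : ∀ᶠ k in UF, (l k).leak (kp C k) = 0) :
    ∃ y : ∀ k, FD (S.F k) (Mon N D), (gaq s.Q D).AdfK (LC.kz (kp C)) (s.cnd 0) y ∧
      vol s.Q D y ≤ H (up1 l (s.Q.dg 1)) := by
  rw [H_over s.Q l (hl none)]
  refine exists_cls hC (P := fun T κ t C' => (EnM A g T κ t ∧ Inv v t) ∧ HasL l.info 0 t C' ∧
    ul (fun k => H (pcd t.Q k) / (T.F k).n) = ul (fun k => H (pcd s.Q k) / (S.F k).n)) ?_ ?_ _ 0 ?_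
  · exact ⟨⟨hA, hI⟩, ⟨l, hl, hK, le_rfl⟩, rfl⟩
  · intro T κ _ t C' hC' h
    exact ⟨⟨enM_dbl hadd g hC' h.1.1, inv_dbl hC' h.1.2⟩, hasL_dbl hC' h.2.1, (pcd_dbl hC').trans h.2.2⟩
  · intro T κ _ t C' h
    have h1 : t.vol D 0 ≤ HQ t 0 := vol_le_HQ hs hD h.1.1 h.1.2
    have h2 := HQ_hasL h.2.1
    rw [h.2.2] at h2
    exact h1.trans h2

/-! ### volumes and entropies of K-labels -/

/-- the structure theorem for K-labels from forms over all K-labels -/
theorem le_HK {s : MSys S M E ι} {R : Rsl S} {c : ℝ} (h : ∀ l : Lab S, KLb s R c l →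
    ∃ (D : ℕ) (x : ∀ k, FD (S.F k) (Mon M D)), KAd s R D c x ∧ vol s.Q D x ≤ H (up1 l (s.Q.dg 1))) :
    volKO s R c ≤ HK s R c := by
  apply le_csInf
  · refine ⟨_, fun k => FLab.triv (S.F k), ⟨fun i => ?_, (LC.kz _).ev_triv⟩, rfl⟩
    have h1 : (fun k => (FLab.triv (S.F k)).leak (cndR s R c i k)) = fun _ => 0 := by
      funext k
      exact FLab.triv_leak _
    rw [h1]
    exact Nul_zero S
  · rintro _ ⟨l, hl, rfl⟩
    obtain ⟨D, x, hx, h2⟩ := h l hl
    exact (volKO_le_of hx).trans h2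

end

end Pool.Agent.Helper3.MX
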